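import Pool.Agent.V8H84.BF.Cells
import Pool.Agent.Results.MP_e8ee11_co.BeckFialaIterFree
import Pool.Agent.Results.MP_e8ee11_co.SparseBeckFiala

set_option autoImplicit false

/-!
# The Beck–Fiala problem when the long sets have polynomially many cells

Let `S_1, …, S_m` be subsets of `{1, …, n}` of maximum degree at most `t`. A set of the system is
*long* if it has more than `s` elements; there is no condition on the other sets (except for the
degree), and no bound for the sizes of the long sets.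

*Few cells.* For every collection `R` of long sets the elements have at most `q + φ |R|` different
nonempty traces `{i ∈ R | j ∈ S i}`. With `φ = 0`: all the long sets together have at most `q` nonempty
cells. For instance `q = N ^ d` if there are `N` long sets, and if any family of `k` of them has at most
`k ^ d` cells (bounded dual VC dimension).

Theorem: such a system has a colouring of discrepancy
`O (√(t + s + φ t) + (1 + log t)^{3/2} √(log (2 + q)))`, and for every `r` one of discrepancy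
`O ((r + 1) (√t + (1 + log t)^2 √(1 + log s + log (1 + φ))) + (1 + log t)^{3/2} (√(log (2 + q)) + √(log^{(r+1)} (min m n))))`,
with `log^{(k)}` the `k`-th iterate of `x ↦ log (1 + x)`.

So the Beck–Fiala bound `O (√t)` holds for `s ≤ t`, `φ = O (1)`, `q ≤ exp (t / (1 + log t)^3)`: for any
number of sets with at most `t` elements together with, e.g., `exp (t / (d (1 + log t)^3))` sets of any
size with polynomially (exponent `d`) many cells.

Proof. By the pigeonhole principle every set `A` of at least `2 q + 2` elements contains two elements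
which are not separated by the sets with more than `max s (4 φ t)` elements in `A`. Matching such pairs
one after the other gives a matching of all but `2 q + 1` elements such that every set separates at most
`max s (4 φ t)` pairs. The elements of a pair get different colours, so that the pairs are coloured by the
theorem for bounded set sizes; the other elements are coloured separately by the theorem for few
elements.
-/

open Finset Pool.Agent.V8H84.BF

namespace Pool.Agent.Results.MP_e8ee11_co.FewCellsOfLongSets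

/-- for every collection `R` of sets of the system with more than `s` elements, the elements have at
most `q + φ * |R|` different nonempty traces `{i ∈ R | j ∈ S i}` -/
def LongCells {m n : ℕ} (S : Fin m → Finset (Fin n)) (s q φ : ℕ) : Prop :=
  ∀ R : Finset (Fin m), (∀ i ∈ R, s < (S i).card) → (((univ : Finset (Fin n)).image
    (fun j => R.filter (fun i => j ∈ S i))).erase ∅).card ≤ q + φ * R.card

theorem sqrt_two_mul_le (x : ℝ) : Real.sqrt (2 * x) ≤ 2 * Real.sqrt x := by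
  rw [Real.sqrt_mul (by norm_num)]
  have h1 : Real.sqrt 2 ≤ 2 := by
    rw [Real.sqrt_le_left (by norm_num)]
    norm_num
  exact mul_le_mul_of_nonneg_right h1 (Real.sqrt_nonneg _)

theorem log_pow_sqrt_le (t : ℝ) (ht : 1 ≤ t) :
    (1 + Real.log t) ^ 2 * Real.sqrt (1 + Real.log t) ≤ 56 * Real.sqrt t := by
  have ht0 : 0 < t := by linarith
  have hlt : 0 ≤ Real.log t := Real.log_nonneg ht
  set c : ℝ := t ^ (1 / 5 : ℝ) with hc
  have hc0 : 0 < c := Real.rpow_pos_of_pos ht0 _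
  have hc5 : c ^ 5 = t := by
    rw [hc, ← Real.rpow_natCast, ← Real.rpow_mul ht0.le]
    norm_num
  have hl : Real.log t = 5 * Real.log c := by
    rw [hc, Real.log_rpow ht0]; ring
  have h1 : 1 + Real.log t ≤ 5 * c := by
    have := Real.log_le_sub_one_of_pos hc0
    rw [hl]; linarith
  set x : ℝ := 1 + Real.log t with hx
  have hx0 : 0 ≤ x := by linarith
  have h2 : (x ^ 2 * Real.sqrt x) ^ 2 ≤ (56 * Real.sqrt t) ^ 2 := by
    rw [mul_pow, Real.sq_sqrt hx0, mul_pow, Real.sq_sqrt ht0.le]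
    calc (x ^ 2) ^ 2 * x = x ^ 5 := by ring
      _ ≤ (5 * c) ^ 5 := pow_le_pow_left₀ hx0 h1 5
      _ = 3125 * t := by rw [mul_pow, hc5]; norm_num
      _ ≤ 56 ^ 2 * t := by nlinarith
  have h3 := Real.sqrt_nonneg t
  have h4 := Real.sqrt_nonneg x
  exact (sq_le_sq₀ (by positivity) (by positivity)).1 h2

/-- few elements -/
theorem small_bound : ∃ C : ℝ, 0 < C ∧ ∀ (m n t M : ℕ) (S : Fin m → Finset (Fin n)), 1 ≤ t →
    (∀ j : Fin n, (univ.filter (fun i : Fin m => j ∈ S i)).card ≤ t) →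
    ∀ F : Finset (Fin n), F.card ≤ M → ∃ ψ : Fin n → ℤ, (∀ j, ψ j = 1 ∨ ψ j = -1) ∧
      ∀ i, ((|∑ j ∈ (S i).filter (fun j => j ∈ F), ψ j| : ℤ) : ℝ) ≤
        C * (Real.sqrt t + (1 + Real.log t) ^ (3 / 2 : ℝ) * Real.sqrt (Real.log (1 + M))) := by
  obtain ⟨C₂, H₂⟩ := Pool.Agent.Results.MP_e8ee11_co.BeckFialaIterFree.result
  refine ⟨max C₂ 1, lt_of_lt_of_le one_pos (le_max_right _ _), ?_⟩
  intro m n t M S ht hdeg F hF
  refine colour_subset S t hdeg F _ (fun S' hd => ?_)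
  obtain ⟨⟨ε, e1, e2⟩, -⟩ := H₂ m F.card t (max 1 F.card) ht (le_max_left _ _) S' hd
    (fun i => ((card_le_univ _).trans (by simp)).trans (le_max_right _ _)) 0 (fun _ => 0)
    (fun _ => by simp)
  refine ⟨ε, e1, fun i => ?_⟩
  have e3 := e2 i
  simp only [sub_zero, Nat.cast_zero, mul_zero, zero_mul, zero_add, Function.iterate_one] at e3
  push_cast
  refine e3.trans ?_
  have htR : (1 : ℝ) ≤ t := by exact_mod_cast ht
  have hlt : 0 ≤ Real.log (t : ℝ) := Real.log_nonneg htR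
  have h0 : (0 : ℝ) ≤ ((min m F.card : ℕ) : ℝ) := Nat.cast_nonneg _
  have h1 : ((min m F.card : ℕ) : ℝ) ≤ M := by
    exact_mod_cast (min_le_right _ _).trans hF
  have h2 : Real.log (1 + ((min m F.card : ℕ) : ℝ)) ≤ Real.log (1 + M) :=
    Real.log_le_log (by linarith) (by linarith)
  have h3 : 0 ≤ (1 + Real.log (t : ℝ)) ^ (3 / 2 : ℝ) := Real.rpow_nonneg (by linarith) _
  have h4 := Real.sqrt_le_sqrt h2
  have h5 := mul_le_mul_of_nonneg_left h4 h3
  have h6 : 0 ≤ Real.sqrt t + (1 + Real.log (t : ℝ)) ^ (3 / 2 : ℝ) *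
      Real.sqrt (Real.log (1 + ((min m F.card : ℕ) : ℝ))) := by positivity
  calc _ ≤ max C₂ 1 * (Real.sqrt t + (1 + Real.log (t : ℝ)) ^ (3 / 2 : ℝ) *
      Real.sqrt (Real.log (1 + ((min m F.card : ℕ) : ℝ)))) :=
        mul_le_mul_of_nonneg_right (le_max_left _ _) h6
    _ ≤ _ := mul_le_mul_of_nonneg_left (by linarith)
        (le_trans zero_le_one (le_max_right _ _))

/-- bounded set sizes -/
theorem pair_bound : ∃ C : ℝ, 0 < C ∧ ∀ (m n t L : ℕ), 1 ≤ t → 1 ≤ L → ∀ r : ℕ,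
    ∀ S' : Fin (m + m) → Finset (Fin n),
      (∀ j, (univ.filter (fun i => j ∈ S' i)).card ≤ 2 * t) → (∀ i, (S' i).card ≤ L) →
      ∃ ε : Fin n → ℤ, (∀ j, ε j = 1 ∨ ε j = -1) ∧ ∀ i, ((|∑ j ∈ S' i, ε j| : ℤ) : ℝ) ≤
        C * (r + 1) * (Real.sqrt t + (1 + Real.log t) ^ 2 * Real.sqrt (1 + Real.log L)) +
          C * (1 + Real.log t) ^ (3 / 2 : ℝ) *
            Real.sqrt ((fun x : ℝ => Real.log (1 + x))^[r + 1] (min m n : ℕ)) := by
  obtain ⟨C₂, H₂⟩ := Pool.Agent.Results.MP_e8ee11_co.BeckFialaIterFree.result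
  set C₃ : ℝ := max C₂ 0 with hC₃
  have hC₃0 : 0 ≤ C₃ := le_max_right _ _
  refine ⟨8 * C₃ + 1, by positivity, ?_⟩
  intro m n t L ht hL r S' hd hs
  have htR : (1 : ℝ) ≤ t := by exact_mod_cast ht
  have hLR : (1 : ℝ) ≤ L := by exact_mod_cast hL
  have hlt : 0 ≤ Real.log (t : ℝ) := Real.log_nonneg htR
  have hlL : 0 ≤ Real.log (L : ℝ) := Real.log_nonneg hLR
  have hl2 : Real.log 2 ≤ 1 := by
    have := Real.log_two_lt_d9
    linarith
  set ℓ : ℝ := 1 + Real.log (t : ℝ) with hℓ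
  have hℓ1 : 1 ≤ ℓ := by linarith
  have hlog2t : 1 + Real.log ((2 * t : ℕ) : ℝ) ≤ 2 * ℓ := by
    push_cast
    rw [Real.log_mul (by norm_num) (by linarith)]
    linarith
  have hlog2t0 : 0 ≤ 1 + Real.log ((2 * t : ℕ) : ℝ) := by
    push_cast
    rw [Real.log_mul (by norm_num) (by linarith)]
    have := Real.log_pos (show (1 : ℝ) < 2 by norm_num)
    linarith
  set z : ℝ := (fun x : ℝ => Real.log (1 + x))^[r + 1] (min m n : ℕ) with hz
  have hz0 : 0 ≤ z := H167BK.slog_iter_nonneg (r + 1) (Nat.cast_nonneg _)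
  have hz2 : (fun x : ℝ => Real.log (1 + x))^[r + 1] (min (m + m) n : ℕ) ≤ 2 * z := by
    refine le_trans (H167KN.slog_iter_mono (r + 1) (Nat.cast_nonneg _) ?_)
      (H167KN.slog_iter_two (r + 1) (Nat.cast_nonneg _))
    have : min (m + m) n ≤ 2 * min m n := by omega
    exact_mod_cast this
  obtain ⟨⟨ε, e1, e2⟩, -⟩ := H₂ (m + m) n (2 * t) L (by omega) hL S' hd hs r (fun _ => 0)
    (fun _ => by simp)
  refine ⟨ε, e1, fun i => ?_⟩
  have e3 := e2 i
  simp only [sub_zero] at e3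
  push_cast
  refine e3.trans ?_
  have g1 : Real.sqrt ((2 * t : ℕ) : ℝ) ≤ 2 * Real.sqrt t := by
    push_cast
    exact sqrt_two_mul_le _
  have g2 : (1 + Real.log ((2 * t : ℕ) : ℝ)) ^ 2 ≤ 4 * ℓ ^ 2 := by
    calc (1 + Real.log ((2 * t : ℕ) : ℝ)) ^ 2 ≤ (2 * ℓ) ^ 2 :=
          pow_le_pow_left₀ hlog2t0 hlog2t 2
      _ = 4 * ℓ ^ 2 := by ring
  have g3 : Real.sqrt (Real.log L) ≤ Real.sqrt (1 + Real.log L) :=
    Real.sqrt_le_sqrt (by linarith)
  have g4 : (1 + Real.log ((2 * t : ℕ) : ℝ)) ^ (3 / 2 : ℝ) ≤ 4 * ℓ ^ (3 / 2 : ℝ) := by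
    calc (1 + Real.log ((2 * t : ℕ) : ℝ)) ^ (3 / 2 : ℝ) ≤ (2 * ℓ) ^ (3 / 2 : ℝ) :=
          Real.rpow_le_rpow hlog2t0 hlog2t (by norm_num)
      _ = 2 ^ (3 / 2 : ℝ) * ℓ ^ (3 / 2 : ℝ) := Real.mul_rpow (by norm_num) (by linarith)
      _ ≤ 4 * ℓ ^ (3 / 2 : ℝ) := by
          refine mul_le_mul_of_nonneg_right ?_ (Real.rpow_nonneg (by linarith) _)
          calc (2 : ℝ) ^ (3 / 2 : ℝ) ≤ (2 : ℝ) ^ (2 : ℝ) :=
                Real.rpow_le_rpow_of_exponent_le (by norm_num) (by norm_num)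
            _ = 4 := by norm_num
  have g5 : Real.sqrt ((fun x : ℝ => Real.log (1 + x))^[r + 1] (min (m + m) n : ℕ)) ≤
      2 * Real.sqrt z := (Real.sqrt_le_sqrt hz2).trans (sqrt_two_mul_le _)
  set Q : ℝ := Real.sqrt ((fun x : ℝ => Real.log (1 + x))^[r + 1] (min (m + m) n : ℕ)) with hQ
  have q0 : 0 ≤ Q := Real.sqrt_nonneg _
  have a1 : 1 ≤ Real.sqrt (t : ℝ) := Real.one_le_sqrt.2 htR
  have a2 : 0 ≤ ℓ ^ (3 / 2 : ℝ) := Real.rpow_nonneg (by linarith) _
  have a3 : 0 ≤ Real.sqrt z := Real.sqrt_nonneg _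
  have a4 : 0 ≤ Real.sqrt (1 + Real.log (L : ℝ)) := Real.sqrt_nonneg _
  have a5 : 0 ≤ Real.sqrt (Real.log (L : ℝ)) := Real.sqrt_nonneg _
  have b1 : Real.sqrt ((2 * t : ℕ) : ℝ) + (1 + Real.log ((2 * t : ℕ) : ℝ)) ^ 2 *
      Real.sqrt (Real.log L) ≤ 2 * Real.sqrt t + 4 * ℓ ^ 2 * Real.sqrt (1 + Real.log L) :=
    add_le_add g1 (mul_le_mul g2 g3 a5 (by positivity))
  have b2 : Real.sqrt ((2 * t : ℕ) : ℝ) + (1 + Real.log ((2 * t : ℕ) : ℝ)) ^ (3 / 2 : ℝ) * Q ≤
      2 * Real.sqrt t + 4 * ℓ ^ (3 / 2 : ℝ) * (2 * Real.sqrt z) :=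
    add_le_add g1 (mul_le_mul g4 g5 q0 (by positivity))
  have b3 : 0 ≤ Real.sqrt ((2 * t : ℕ) : ℝ) + (1 + Real.log ((2 * t : ℕ) : ℝ)) ^ 2 *
      Real.sqrt (Real.log L) := by positivity
  have b4 : 0 ≤ Real.sqrt ((2 * t : ℕ) : ℝ) +
      (1 + Real.log ((2 * t : ℕ) : ℝ)) ^ (3 / 2 : ℝ) * Q := by
    have := Real.rpow_nonneg hlog2t0 (3 / 2)
    positivity
  have c1 : C₂ ≤ C₃ := le_max_left _ _
  have hr0 : (0 : ℝ) ≤ r := Nat.cast_nonneg _
  have d1 : C₂ * r * (Real.sqrt ((2 * t : ℕ) : ℝ) + (1 + Real.log ((2 * t : ℕ) : ℝ)) ^ 2 *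
      Real.sqrt (Real.log L)) ≤
      C₃ * r * (2 * Real.sqrt t + 4 * ℓ ^ 2 * Real.sqrt (1 + Real.log L)) :=
    mul_le_mul (mul_le_mul_of_nonneg_right c1 hr0) b1 b3 (by positivity)
  have d2 : C₂ * (Real.sqrt ((2 * t : ℕ) : ℝ) +
      (1 + Real.log ((2 * t : ℕ) : ℝ)) ^ (3 / 2 : ℝ) * Q) ≤
      C₃ * (2 * Real.sqrt t + 4 * ℓ ^ (3 / 2 : ℝ) * (2 * Real.sqrt z)) :=
    mul_le_mul c1 b2 b4 hC₃0
  refine (add_le_add d1 d2).trans ?_
  set U : ℝ := ℓ ^ 2 * Real.sqrt (1 + Real.log L) with hU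
  have hU0 : 0 ≤ U := by positivity
  set V : ℝ := ℓ ^ (3 / 2 : ℝ) * Real.sqrt z with hV
  have hV0 : 0 ≤ V := by positivity
  have f1 : 0 ≤ C₃ * r * Real.sqrt t := by positivity
  have f2 : 0 ≤ C₃ * r * U := by positivity
  have f3 : 0 ≤ C₃ * Real.sqrt t := by positivity
  have f4 : 0 ≤ C₃ * U := by positivity
  have f5 : 0 ≤ C₃ * V := by positivity
  have f6 : 0 ≤ (r : ℝ) * Real.sqrt t := by positivity
  have f7 : 0 ≤ (r : ℝ) * U := by positivity
  have r1 : C₃ * r * (2 * Real.sqrt t + 4 * ℓ ^ 2 * Real.sqrt (1 + Real.log L)) +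
      C₃ * (2 * Real.sqrt t + 4 * ℓ ^ (3 / 2 : ℝ) * (2 * Real.sqrt z)) =
      2 * (C₃ * r * Real.sqrt t) + 4 * (C₃ * r * U) + 2 * (C₃ * Real.sqrt t) + 8 * (C₃ * V) := by
    rw [hU, hV]; ring
  have r2 : (8 * C₃ + 1) * (r + 1) * (Real.sqrt t + ℓ ^ 2 * Real.sqrt (1 + Real.log L)) +
      (8 * C₃ + 1) * ℓ ^ (3 / 2 : ℝ) * Real.sqrt z =
      8 * (C₃ * r * Real.sqrt t) + 8 * (C₃ * r * U) + 8 * (C₃ * Real.sqrt t) + 8 * (C₃ * U) +
        (r : ℝ) * Real.sqrt t + (r : ℝ) * U + Real.sqrt t + U + 8 * (C₃ * V) + V := by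
    rw [hU, hV]; ring
  rw [r1, r2]
  linarith

/-- all the long sets together have few cells -/
theorem longCells_of_card {m n : ℕ} (S : Fin m → Finset (Fin n)) (s q : ℕ)
    (h : (((univ : Finset (Fin n)).image (fun j => (univ : Finset (Fin m)).filter
      (fun i => s < (S i).card ∧ j ∈ S i))).erase ∅).card ≤ q) : LongCells S s q 0 := by
  classical
  intro R hR
  rw [zero_mul, add_zero]
  refine le_trans ?_ h
  refine le_trans (card_le_card ?_) (card_image_le (f := fun T => T.filter (fun i => i ∈ R)))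
  intro T hT
  rw [mem_erase, mem_image] at hT
  obtain ⟨hT0, j, -, rfl⟩ := hT
  have key : R.filter (fun i => j ∈ S i) =
      ((univ : Finset (Fin m)).filter (fun i => s < (S i).card ∧ j ∈ S i)).filter
        (fun i => i ∈ R) := by
    ext i
    simp only [mem_filter, mem_univ, true_and]
    constructor
    · rintro ⟨h1, h2⟩
      exact ⟨⟨hR i h1, h2⟩, h1⟩
    · rintro ⟨⟨_, h2⟩, h3⟩
      exact ⟨h3, h2⟩
  rw [mem_image]
  refine ⟨_, ?_, key.symm⟩
  rw [mem_erase, mem_image]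
  refine ⟨fun h0 => hT0 ?_, j, mem_univ _, rfl⟩
  rw [key, h0]
  simp

theorem result : ∃ C : ℝ, 0 < C ∧ ∀ (m n t s q φ : ℕ) (S : Fin m → Finset (Fin n)), 1 ≤ t → 1 ≤ s →
    (∀ j : Fin n, (univ.filter (fun i : Fin m => j ∈ S i)).card ≤ t) →
    (φ = 0 → (((univ : Finset (Fin n)).image (fun j => (univ : Finset (Fin m)).filter
        (fun i => s < (S i).card ∧ j ∈ S i))).erase ∅).card ≤ q → LongCells S s q φ) ∧
    (LongCells S s q φ →
      (∃ χ : Fin n → ℤ, (∀ j, χ j = 1 ∨ χ j = -1) ∧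
        ∀ i, ((|∑ j ∈ S i, χ j| : ℤ) : ℝ) ≤
          C * (Real.sqrt (t + s + φ * t) +
            (1 + Real.log t) ^ (3 / 2 : ℝ) * Real.sqrt (Real.log (2 + q)))) ∧
      ∀ r : ℕ, ∃ χ : Fin n → ℤ, (∀ j, χ j = 1 ∨ χ j = -1) ∧
        ∀ i, ((|∑ j ∈ S i, χ j| : ℤ) : ℝ) ≤
          C * (r + 1) * (Real.sqrt t +
            (1 + Real.log t) ^ 2 * Real.sqrt (1 + Real.log s + Real.log (1 + φ))) +
          C * (1 + Real.log t) ^ (3 / 2 : ℝ) * (Real.sqrt (Real.log (2 + q)) +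
            Real.sqrt ((fun x : ℝ => Real.log (1 + x))^[r + 1] (min m n : ℕ)))) := by
  obtain ⟨C₁, hC₁, H₁⟩ := Pool.Agent.Results.MP_e8ee11_co.SparseBeckFiala.result
  obtain ⟨C₄, hC₄, H₄⟩ := small_bound
  obtain ⟨C₅, hC₅, H₅⟩ := pair_bound
  refine ⟨8 * C₁ + 2 * C₄ + 114 * C₅, by positivity, ?_⟩
  intro m n t s q φ S ht hs hdeg
  refine ⟨?_, fun hS => ?_⟩
  · rintro rfl h
    exact longCells_of_card S s q h
  set L : ℕ := max s (4 * φ * t) with hL
  have hsL : s ≤ L := le_max_left _ _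
  have hL1 : 1 ≤ L := hs.trans hsL
  have hins : Insep S L (2 * q + 1) :=
    insep_of_cells S t q φ s L hsL (le_max_right _ _) hdeg hS
  have hLle : L ≤ s + 4 * (φ * t) := by
    rw [hL]
    refine max_le (Nat.le_add_right _ _) ?_
    rw [mul_assoc]
    exact Nat.le_add_left _ _
  have hLR : (L : ℝ) ≤ s + 4 * (φ * t) := by exact_mod_cast hLle
  have htR : (1 : ℝ) ≤ t := by exact_mod_cast ht
  have hsR : (1 : ℝ) ≤ s := by exact_mod_cast hs
  have hL1R : (1 : ℝ) ≤ L := by exact_mod_cast hL1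
  have hφ0 : (0 : ℝ) ≤ φ := Nat.cast_nonneg _
  have hq0 : (0 : ℝ) ≤ q := Nat.cast_nonneg _
  have hlt : 0 ≤ Real.log (t : ℝ) := Real.log_nonneg htR
  have hls : 0 ≤ Real.log (s : ℝ) := Real.log_nonneg hsR
  set x : ℝ := 1 + Real.log (t : ℝ) with hx
  have hx1 : 1 ≤ x := by linarith
  set X : ℝ := x ^ (3 / 2 : ℝ) with hX
  have hX0 : 0 ≤ X := Real.rpow_nonneg (by linarith) _
  set W : ℝ := Real.sqrt (Real.log (2 + q)) with hW
  have hW0 : 0 ≤ W := Real.sqrt_nonneg _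
  have ht1 : 1 ≤ Real.sqrt (t : ℝ) := Real.one_le_sqrt.2 htR
  have hq2 : Real.sqrt (Real.log (1 + ((2 * q + 1 : ℕ) : ℝ))) ≤ 2 * W := by
    have e1 : Real.log (1 + ((2 * q + 1 : ℕ) : ℝ)) ≤ 2 * Real.log (2 + q) := by
      rw [show (2 : ℝ) * Real.log (2 + q) = Real.log ((2 + q) ^ 2) by
        rw [Real.log_pow]; norm_num]
      apply Real.log_le_log (by positivity)
      push_cast
      nlinarith
    exact (Real.sqrt_le_sqrt e1).trans (sqrt_two_mul_le _)
  have hBf : C₄ * (Real.sqrt t + X * Real.sqrt (Real.log (1 + ((2 * q + 1 : ℕ) : ℝ)))) ≤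
      2 * C₄ * (Real.sqrt t + X * W) := by
    have e1 := mul_le_mul_of_nonneg_left hq2 hX0
    have e2 : Real.sqrt t + X * Real.sqrt (Real.log (1 + ((2 * q + 1 : ℕ) : ℝ))) ≤
        2 * (Real.sqrt t + X * W) := by linarith
    calc _ ≤ C₄ * (2 * (Real.sqrt t + X * W)) := mul_le_mul_of_nonneg_left e2 hC₄.le
      _ = _ := by ring
  have hF := H₄ m n t (2 * q + 1) S ht hdeg
  refine ⟨?_, fun r => ?_⟩
  · obtain ⟨χ, h1, h2⟩ := colouring_of_matching S t L (2 * q + 1) hdeg hins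
      (C₁ * (2 * Real.sqrt (t + L))) _ hF (by
      intro S' hd hs
      obtain ⟨ε, e1, e2⟩ := H₁ n (m + m) (2 * t) L S' hd hs
      refine ⟨ε, e1, fun i => (e2 i).trans ?_⟩
      refine mul_le_mul_of_nonneg_left ?_ hC₁.le
      refine le_trans (Real.sqrt_le_sqrt ?_) (sqrt_two_mul_le _)
      have h3 : (((S' i).card : ℕ) : ℝ) ≤ L := by exact_mod_cast hs i
      have h4 : (L : ℝ) ^ (2 / 3 : ℝ) ≤ L := by
        calc (L : ℝ) ^ (2 / 3 : ℝ) ≤ (L : ℝ) ^ (1 : ℝ) :=
              Real.rpow_le_rpow_of_exponent_le hL1R (by norm_num)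
          _ = L := Real.rpow_one _
      push_cast
      linarith)
    refine ⟨χ, h1, fun i => (h2 i).trans ?_⟩
    have h3 : Real.sqrt ((t : ℝ) + L) ≤ 2 * Real.sqrt (t + s + φ * t) := by
      have h4 : (2 : ℝ) * Real.sqrt (t + s + φ * t) =
          Real.sqrt (4 * (t + s + φ * t)) := by
        rw [Real.sqrt_mul (by norm_num), show (4 : ℝ) = 2 ^ 2 by norm_num,
          Real.sqrt_sq (by norm_num)]
      rw [h4]
      exact Real.sqrt_le_sqrt (by linarith)
    have h5 : Real.sqrt (t : ℝ) ≤ Real.sqrt (t + s + φ * t) := by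
      apply Real.sqrt_le_sqrt
      have : (0 : ℝ) ≤ φ * t := by positivity
      linarith
    set Y : ℝ := Real.sqrt (t + s + φ * t) with hY
    have hY0 : 0 ≤ Y := Real.sqrt_nonneg _
    have h6 : 2 * (C₁ * (2 * Real.sqrt (t + L))) ≤ 8 * C₁ * Y := by
      have := mul_le_mul_of_nonneg_left h3 hC₁.le
      linarith
    have h7 : 2 * C₄ * (Real.sqrt t + X * W) ≤ 2 * C₄ * (Y + X * W) :=
      mul_le_mul_of_nonneg_left (by linarith) (by positivity)
    have f1 : 0 ≤ C₁ * (X * W) := by positivity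
    have f2 : 0 ≤ C₅ * (Y + X * W) := by positivity
    calc _ ≤ 8 * C₁ * Y + 2 * C₄ * (Y + X * W) := add_le_add h6 (hBf.trans h7)
      _ ≤ (8 * C₁ + 2 * C₄ + 114 * C₅) * (Y + X * W) := by
        have : (8 * C₁ + 2 * C₄ + 114 * C₅) * (Y + X * W) =
            8 * C₁ * Y + 2 * C₄ * (Y + X * W) + 8 * (C₁ * (X * W)) +
              114 * (C₅ * (Y + X * W)) := by ring
        rw [this]
        linarith
  · obtain ⟨χ, h1, h2⟩ := colouring_of_matching S t L (2 * q + 1) hdeg hins _ _ hF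
      (H₅ m n t L ht hL1 r)
    refine ⟨χ, h1, fun i => (h2 i).trans ?_⟩
    have hlφ : 0 ≤ Real.log (1 + (φ : ℝ)) := Real.log_nonneg (by linarith)
    have hlogL : Real.log L ≤ 2 + Real.log s + Real.log (1 + φ) + Real.log t := by
      have e1 : (L : ℝ) ≤ 5 * (s * ((1 + φ) * t)) := by
        have e0 : (1 : ℝ) ≤ (1 + φ) * t := one_le_mul_of_one_le_of_one_le (by linarith) htR
        have e2 : (s : ℝ) ≤ s * ((1 + φ) * t) := by nlinarith
        have e3 : (φ : ℝ) * t ≤ s * ((1 + φ) * t) := by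
          have : (φ : ℝ) * t ≤ (1 + φ) * t := by nlinarith
          nlinarith
        linarith
      have e4 : Real.log L ≤ Real.log (5 * (s * ((1 + φ) * t))) :=
        Real.log_le_log (by linarith) e1
      have hs0 : (s : ℝ) ≠ 0 := by linarith
      have ht0 : (t : ℝ) ≠ 0 := by linarith
      rw [Real.log_mul (by norm_num) (by positivity), Real.log_mul hs0 (by positivity),
        Real.log_mul (by positivity) ht0] at e4
      have e7 : Real.log 5 ≤ 2 := by
        have : Real.log 5 ≤ Real.log 4 + Real.log (5 / 4) := by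
          rw [← Real.log_mul (by norm_num) (by norm_num)]
          norm_num
        have h8 := Real.log_le_sub_one_of_pos (show (0 : ℝ) < 5 / 4 by norm_num)
        have h9 : Real.log 4 ≤ 7 / 5 := by
          have := Real.log_two_lt_d9
          rw [show (4 : ℝ) = 2 ^ 2 by norm_num, Real.log_pow]
          push_cast
          linarith
        linarith
      linarith
    set w : ℝ := 1 + Real.log s + Real.log (1 + φ) with hw
    have hw1 : 1 ≤ w := by linarith
    have hsq : Real.sqrt (1 + Real.log L) ≤ 2 * Real.sqrt w + Real.sqrt x := by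
      have e1 : 1 + Real.log L ≤ (2 * Real.sqrt w + Real.sqrt x) ^ 2 := by
        have e2 : (2 * Real.sqrt w + Real.sqrt x) ^ 2 =
            4 * (Real.sqrt w) ^ 2 + 4 * Real.sqrt w * Real.sqrt x + (Real.sqrt x) ^ 2 := by ring
        rw [e2, Real.sq_sqrt (by linarith), Real.sq_sqrt (by linarith)]
        have e3 : 0 ≤ 4 * Real.sqrt w * Real.sqrt x := by positivity
        linarith
      have e4 : 0 ≤ 2 * Real.sqrt w + Real.sqrt x := by positivity
      calc Real.sqrt (1 + Real.log L) ≤ Real.sqrt ((2 * Real.sqrt w + Real.sqrt x) ^ 2) :=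
            Real.sqrt_le_sqrt e1
        _ = _ := Real.sqrt_sq e4
    have hlog := log_pow_sqrt_le (t : ℝ) htR
    have a1 : 0 ≤ Real.sqrt (t : ℝ) := Real.sqrt_nonneg _
    set Q : ℝ := Real.sqrt ((fun x : ℝ => Real.log (1 + x))^[r + 1] (min m n : ℕ)) with hQ
    have a3 : 0 ≤ Q := Real.sqrt_nonneg _
    have a4 : 0 ≤ Real.sqrt w := Real.sqrt_nonneg _
    set U : ℝ := x ^ 2 * Real.sqrt w with hU
    have hU0 : 0 ≤ U := by positivity
    have hr0 : (0 : ℝ) ≤ r := Nat.cast_nonneg _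
    have b1 : Real.sqrt t + x ^ 2 * Real.sqrt (1 + Real.log L) ≤
        57 * (Real.sqrt t + U) := by
      have c1 : x ^ 2 * Real.sqrt (1 + Real.log L) ≤ x ^ 2 * (2 * Real.sqrt w + Real.sqrt x) :=
        mul_le_mul_of_nonneg_left hsq (by positivity)
      have c2 : x ^ 2 * (2 * Real.sqrt w + Real.sqrt x) =
          2 * U + x ^ 2 * Real.sqrt x := by rw [hU]; ring
      linarith
    have b2 : C₅ * (r + 1) * (Real.sqrt t + x ^ 2 * Real.sqrt (1 + Real.log L)) ≤
        C₅ * (r + 1) * (57 * (Real.sqrt t + U)) :=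
      mul_le_mul_of_nonneg_left b1 (by positivity)
    have g1 : 0 ≤ C₅ * (X * Q) := by positivity
    have g2 : 0 ≤ C₁ * ((r + 1) * (Real.sqrt t + U)) := by positivity
    have g3 : 0 ≤ C₁ * (X * (W + Q)) := by positivity
    have g4 : 0 ≤ C₄ * (r * Real.sqrt t + (r + 1) * U) := by positivity
    have g5 : 0 ≤ C₄ * (X * Q) := by positivity
    have g6 : 0 ≤ C₅ * (X * W) := by positivity
    have key : (8 * C₁ + 2 * C₄ + 114 * C₅) * (r + 1) * (Real.sqrt t + U) +
        (8 * C₁ + 2 * C₄ + 114 * C₅) * X * (W + Q) =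
        2 * (C₅ * (r + 1) * (57 * (Real.sqrt t + U)) + C₅ * X * Q) +
          2 * C₄ * (Real.sqrt t + X * W) + 8 * (C₁ * ((r + 1) * (Real.sqrt t + U))) +
          8 * (C₁ * (X * (W + Q))) + 2 * (C₄ * (r * Real.sqrt t + (r + 1) * U)) +
          2 * (C₄ * (X * Q)) + 114 * (C₅ * (X * W)) + 112 * (C₅ * (X * Q)) := by ring
    rw [key]
    linarith

end Pool.Agent.Results.MP_e8ee11_co.FewCellsOfLongSets
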