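import Pool.Agent.V8H5.BF.Match
import Pool.Agent.Results.MP_e8ee11_co.BeckFialaIterFree
import Pool.Agent.Results.MP_e8ee11_co.SparseBeckFiala

set_option autoImplicit false

/-!
# The Beck–Fiala problem for set systems with few cells

Let `S_1, …, S_m` be subsets of `{1, …, n}` of maximum degree at most `t`, without any restriction
on their sizes.

*Few cells.* Any `k` of the sets have at most `φ k` nonempty cells: the elements of the ground set
have at most `φ k` different nonempty traces on these sets (a linear dual shatter function). For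
points and regions with `O(k φ)` cells of depth at most `t`.

*Inseparable pairs.* Every set `A` of at least two elements contains two elements which are separated
by no `S_i` with more than `L` elements in `A`. This follows from few cells, with `L = 2 φ t`.

Theorem: for a system with inseparable pairs there is a colouring of discrepancy `O (√(t + L))`, and
there are colourings of discrepancy
`O ((r + 1) (√t + (1 + log t)^2 √(1 + log L)) + (1 + log t)^{3/2} √(log^{(r+1)} (min m n)))` for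
every `r`, with `log^{(k)}` the `k`-th iterate of `x ↦ log (1 + x)`. So, up to iterated logarithms,
the Beck–Fiala bound `O(√t)` holds for `φ` up to `exp (t / polylog t)`.

Proof: matching inseparable pairs one after the other gives a matching of the ground set such that
every set, however large, separates at most `L` pairs. The two elements of a pair get different
colours, so that it remains to colour the pairs, for a system of sets with at most `L` elements.
-/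

open Finset Pool.Agent.V8H5.BF

namespace Pool.Agent.Results.MP_e8ee11_co.LinearCells

/-- every set `A` of at least two elements contains two elements which are separated by no set of
the system with more than `L` elements in `A` -/
def InseparablePairs {m n : ℕ} (S : Fin m → Finset (Fin n)) (L : ℕ) : Prop :=
  ∀ A : Finset (Fin n), 2 ≤ A.card → ∃ a ∈ A, ∃ b ∈ A, a ≠ b ∧
    ∀ i : Fin m, L < (S i ∩ A).card → (a ∈ S i ↔ b ∈ S i)

/-- for every collection `R` of sets of the system, the elements have at most `φ * |R|` different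
nonempty traces `{i ∈ R | j ∈ S i}` -/
def FewCells {m n : ℕ} (S : Fin m → Finset (Fin n)) (φ : ℕ) : Prop :=
  ∀ R : Finset (Fin m), (((univ : Finset (Fin n)).image
    (fun j => R.filter (fun i => j ∈ S i))).erase ∅).card ≤ φ * R.card

theorem sqrt_two_mul_le (x : ℝ) : Real.sqrt (2 * x) ≤ 2 * Real.sqrt x := by
  rw [Real.sqrt_mul (by norm_num)]
  have h1 : Real.sqrt 2 ≤ 2 := by
    rw [Real.sqrt_le_left (by norm_num)]
    norm_num
  exact mul_le_mul_of_nonneg_right h1 (Real.sqrt_nonneg _)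

theorem result : ∃ C : ℝ, 0 < C ∧ ∀ (m n t : ℕ) (S : Fin m → Finset (Fin n)), 1 ≤ t →
    (∀ j : Fin n, (univ.filter (fun i : Fin m => j ∈ S i)).card ≤ t) →
    (∀ φ : ℕ, FewCells S φ → InseparablePairs S (2 * φ * t)) ∧
    ∀ L : ℕ, 1 ≤ L → InseparablePairs S L →
      (∃ χ : Fin n → ℤ, (∀ j, χ j = 1 ∨ χ j = -1) ∧
        ∀ i, ((|∑ j ∈ S i, χ j| : ℤ) : ℝ) ≤ C * Real.sqrt (t + L)) ∧
      ∀ r : ℕ, ∃ χ : Fin n → ℤ, (∀ j, χ j = 1 ∨ χ j = -1) ∧
        ∀ i, ((|∑ j ∈ S i, χ j| : ℤ) : ℝ) ≤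
          C * (r + 1) * (Real.sqrt t + (1 + Real.log t) ^ 2 * Real.sqrt (1 + Real.log L)) +
          C * (1 + Real.log t) ^ (3 / 2 : ℝ) *
            Real.sqrt ((fun x : ℝ => Real.log (1 + x))^[r + 1] (min m n : ℕ)) := by
  obtain ⟨C₁, hC₁, H₁⟩ := Pool.Agent.Results.MP_e8ee11_co.SparseBeckFiala.result
  obtain ⟨C₂, H₂⟩ := Pool.Agent.Results.MP_e8ee11_co.BeckFialaIterFree.result
  set C₃ : ℝ := max C₂ 0 with hC₃
  have hC₃0 : 0 ≤ C₃ := le_max_right _ _
  refine ⟨max (4 * C₁ + 1) (32 * C₃ + 1), lt_of_lt_of_le (by positivity) (le_max_left _ _), ?_⟩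
  intro m n t S ht hdeg
  refine ⟨fun φ hφ => insep_of_cells S t φ hdeg hφ, fun L hL hS => ⟨?_, fun r => ?_⟩⟩
  · obtain ⟨χ, h1, h2⟩ := colouring_of_matching S t L hdeg hS (C₁ * (2 * Real.sqrt (t + L))) (by
      intro S' hd hs
      obtain ⟨ε, e1, e2⟩ := H₁ n (m + m) (2 * t) L S' hd hs
      refine ⟨ε, e1, fun i => (e2 i).trans ?_⟩
      refine mul_le_mul_of_nonneg_left ?_ hC₁.le
      refine le_trans (Real.sqrt_le_sqrt ?_) (sqrt_two_mul_le _)
      have h3 : (((S' i).card : ℕ) : ℝ) ≤ L := by exact_mod_cast hs i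
      have h4 : (L : ℝ) ^ (2 / 3 : ℝ) ≤ L := by
        have h5 : (1 : ℝ) ≤ L := by exact_mod_cast hL
        calc (L : ℝ) ^ (2 / 3 : ℝ) ≤ (L : ℝ) ^ (1 : ℝ) :=
              Real.rpow_le_rpow_of_exponent_le h5 (by norm_num)
          _ = L := Real.rpow_one _
      push_cast
      linarith)
    refine ⟨χ, h1, fun i => (h2 i).trans ?_⟩
    have h3 : (1 : ℝ) ≤ Real.sqrt (t + L) := by
      rw [Real.one_le_sqrt]
      have : (1 : ℝ) ≤ t := by exact_mod_cast ht
      have h0 : (0 : ℝ) ≤ L := Nat.cast_nonneg _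
      linarith
    calc 2 * (C₁ * (2 * Real.sqrt (t + L))) + 1 ≤ (4 * C₁ + 1) * Real.sqrt (t + L) := by linarith
      _ ≤ _ := mul_le_mul_of_nonneg_right (le_max_left _ _) (Real.sqrt_nonneg _)
  · have htR : (1 : ℝ) ≤ t := by exact_mod_cast ht
    have hLR : (1 : ℝ) ≤ L := by exact_mod_cast hL
    have hlt : 0 ≤ Real.log (t : ℝ) := Real.log_nonneg htR
    have hlL : 0 ≤ Real.log (L : ℝ) := Real.log_nonneg hLR
    have hl2 : Real.log 2 ≤ 1 := by
      have := Real.log_two_lt_d9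
      linarith
    set ℓ : ℝ := 1 + Real.log (t : ℝ) with hℓ
    have hℓ1 : 1 ≤ ℓ := by linarith
    have hlog2t : 1 + Real.log ((2 * t : ℕ) : ℝ) ≤ 2 * ℓ := by
      push_cast
      rw [Real.log_mul (by norm_num) (by linarith)]
      linarith
    have hlog2t0 : 0 ≤ 1 + Real.log ((2 * t : ℕ) : ℝ) := by
      push_cast
      rw [Real.log_mul (by norm_num) (by linarith)]
      have := Real.log_pos (show (1 : ℝ) < 2 by norm_num)
      linarith
    set z : ℝ := (fun x : ℝ => Real.log (1 + x))^[r + 1] (min m n : ℕ) with hz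
    have hz0 : 0 ≤ z := H167BK.slog_iter_nonneg (r + 1) (Nat.cast_nonneg _)
    have hz2 : (fun x : ℝ => Real.log (1 + x))^[r + 1] (min (m + m) n : ℕ) ≤ 2 * z := by
      refine le_trans (H167KN.slog_iter_mono (r + 1) (Nat.cast_nonneg _) ?_)
        (H167KN.slog_iter_two (r + 1) (Nat.cast_nonneg _))
      have : min (m + m) n ≤ 2 * min m n := by omega
      exact_mod_cast this
    set Bd : ℝ := C₃ * (r + 1) * (2 * Real.sqrt t + 4 * ℓ ^ 2 * Real.sqrt (1 + Real.log L)) +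
      8 * C₃ * ℓ ^ (3 / 2 : ℝ) * Real.sqrt z with hBd
    obtain ⟨χ, h1, h2⟩ := colouring_of_matching S t L hdeg hS Bd (by
      intro S' hd hs
      obtain ⟨⟨ε, e1, e2⟩, -⟩ := H₂ (m + m) n (2 * t) L (by omega) hL S' hd hs r (fun _ => 0)
        (fun _ => by simp)
      refine ⟨ε, e1, fun i => ?_⟩
      have e3 := e2 i
      simp only [sub_zero] at e3
      push_cast
      refine e3.trans ?_
      have g1 : Real.sqrt ((2 * t : ℕ) : ℝ) ≤ 2 * Real.sqrt t := by
        push_cast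
        exact sqrt_two_mul_le _
      have g2 : (1 + Real.log ((2 * t : ℕ) : ℝ)) ^ 2 ≤ 4 * ℓ ^ 2 := by
        calc (1 + Real.log ((2 * t : ℕ) : ℝ)) ^ 2 ≤ (2 * ℓ) ^ 2 :=
              pow_le_pow_left₀ hlog2t0 hlog2t 2
          _ = 4 * ℓ ^ 2 := by ring
      have g3 : Real.sqrt (Real.log L) ≤ Real.sqrt (1 + Real.log L) :=
        Real.sqrt_le_sqrt (by linarith)
      have g4 : (1 + Real.log ((2 * t : ℕ) : ℝ)) ^ (3 / 2 : ℝ) ≤ 4 * ℓ ^ (3 / 2 : ℝ) := by
        calc (1 + Real.log ((2 * t : ℕ) : ℝ)) ^ (3 / 2 : ℝ) ≤ (2 * ℓ) ^ (3 / 2 : ℝ) :=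
              Real.rpow_le_rpow hlog2t0 hlog2t (by norm_num)
          _ = 2 ^ (3 / 2 : ℝ) * ℓ ^ (3 / 2 : ℝ) := Real.mul_rpow (by norm_num) (by linarith)
          _ ≤ 4 * ℓ ^ (3 / 2 : ℝ) := by
              refine mul_le_mul_of_nonneg_right ?_ (Real.rpow_nonneg (by linarith) _)
              calc (2 : ℝ) ^ (3 / 2 : ℝ) ≤ (2 : ℝ) ^ (2 : ℝ) :=
                    Real.rpow_le_rpow_of_exponent_le (by norm_num) (by norm_num)
                _ = 4 := by norm_num
      have g5 : Real.sqrt ((fun x : ℝ => Real.log (1 + x))^[r + 1] (min (m + m) n : ℕ)) ≤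
          2 * Real.sqrt z := (Real.sqrt_le_sqrt hz2).trans (sqrt_two_mul_le _)
      set Q : ℝ := Real.sqrt ((fun x : ℝ => Real.log (1 + x))^[r + 1] (min (m + m) n : ℕ)) with hQ
      have q0 : 0 ≤ Q := Real.sqrt_nonneg _
      have a1 : 0 ≤ Real.sqrt (t : ℝ) := Real.sqrt_nonneg _
      have a2 : 0 ≤ ℓ ^ (3 / 2 : ℝ) := Real.rpow_nonneg (by linarith) _
      have a3 : 0 ≤ Real.sqrt z := Real.sqrt_nonneg _
      have a4 : 0 ≤ Real.sqrt (1 + Real.log (L : ℝ)) := Real.sqrt_nonneg _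
      have a5 : 0 ≤ Real.sqrt (Real.log (L : ℝ)) := Real.sqrt_nonneg _
      have b1 : Real.sqrt ((2 * t : ℕ) : ℝ) + (1 + Real.log ((2 * t : ℕ) : ℝ)) ^ 2 *
          Real.sqrt (Real.log L) ≤ 2 * Real.sqrt t + 4 * ℓ ^ 2 * Real.sqrt (1 + Real.log L) :=
        add_le_add g1 (mul_le_mul g2 g3 a5 (by positivity))
      have b2 : Real.sqrt ((2 * t : ℕ) : ℝ) + (1 + Real.log ((2 * t : ℕ) : ℝ)) ^ (3 / 2 : ℝ) * Q ≤
          2 * Real.sqrt t + 4 * ℓ ^ (3 / 2 : ℝ) * (2 * Real.sqrt z) :=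
        add_le_add g1 (mul_le_mul g4 g5 q0 (by positivity))
      have b3 : 0 ≤ Real.sqrt ((2 * t : ℕ) : ℝ) + (1 + Real.log ((2 * t : ℕ) : ℝ)) ^ 2 *
          Real.sqrt (Real.log L) := by positivity
      have b4 : 0 ≤ Real.sqrt ((2 * t : ℕ) : ℝ) +
          (1 + Real.log ((2 * t : ℕ) : ℝ)) ^ (3 / 2 : ℝ) * Q := by
        have := Real.rpow_nonneg hlog2t0 (3 / 2)
        positivity
      have c1 : C₂ ≤ C₃ := le_max_left _ _
      have hr0 : (0 : ℝ) ≤ r := Nat.cast_nonneg _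
      have d1 : C₂ * r * (Real.sqrt ((2 * t : ℕ) : ℝ) + (1 + Real.log ((2 * t : ℕ) : ℝ)) ^ 2 *
          Real.sqrt (Real.log L)) ≤
          C₃ * r * (2 * Real.sqrt t + 4 * ℓ ^ 2 * Real.sqrt (1 + Real.log L)) :=
        mul_le_mul (mul_le_mul_of_nonneg_right c1 hr0) b1 b3 (by positivity)
      have d2 : C₂ * (Real.sqrt ((2 * t : ℕ) : ℝ) +
          (1 + Real.log ((2 * t : ℕ) : ℝ)) ^ (3 / 2 : ℝ) * Q) ≤
          C₃ * (2 * Real.sqrt t + 4 * ℓ ^ (3 / 2 : ℝ) * (2 * Real.sqrt z)) :=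
        mul_le_mul c1 b2 b4 hC₃0
      have d3 : 0 ≤ C₃ * (4 * ℓ ^ 2 * Real.sqrt (1 + Real.log L)) := by positivity
      refine (add_le_add d1 d2).trans ?_
      rw [hBd]
      nlinarith)
    refine ⟨χ, h1, fun i => (h2 i).trans ?_⟩
    set M : ℝ := max (4 * C₁ + 1) (32 * C₃ + 1) with hM
    have hM1 : 32 * C₃ + 1 ≤ M := le_max_right _ _
    have a1 : 1 ≤ Real.sqrt (t : ℝ) := Real.one_le_sqrt.2 htR
    have a2 : 0 ≤ ℓ ^ (3 / 2 : ℝ) := Real.rpow_nonneg (by linarith) _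
    have a3 : 0 ≤ Real.sqrt z := Real.sqrt_nonneg _
    have a4 : 0 ≤ Real.sqrt (1 + Real.log (L : ℝ)) := Real.sqrt_nonneg _
    have hr0 : (0 : ℝ) ≤ r := Nat.cast_nonneg _
    have p1 : 0 ≤ (r + 1 : ℝ) * (ℓ ^ 2 * Real.sqrt (1 + Real.log (L : ℝ))) := by positivity
    have p2 : 0 ≤ ℓ ^ (3 / 2 : ℝ) * Real.sqrt z := by positivity
    have p3 : 1 ≤ (r + 1 : ℝ) * Real.sqrt (t : ℝ) := by nlinarith
    have e1 : M * (r + 1) * (Real.sqrt t + ℓ ^ 2 * Real.sqrt (1 + Real.log L)) +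
        M * ℓ ^ (3 / 2 : ℝ) * Real.sqrt z =
        M * (((r + 1 : ℝ) * Real.sqrt t + (r + 1 : ℝ) * (ℓ ^ 2 * Real.sqrt (1 + Real.log L))) +
          ℓ ^ (3 / 2 : ℝ) * Real.sqrt z) := by ring
    rw [e1]
    have e2 : (32 * C₃ + 1) * (((r + 1 : ℝ) * Real.sqrt t +
        (r + 1 : ℝ) * (ℓ ^ 2 * Real.sqrt (1 + Real.log L))) + ℓ ^ (3 / 2 : ℝ) * Real.sqrt z) ≤
        M * (((r + 1 : ℝ) * Real.sqrt t + (r + 1 : ℝ) * (ℓ ^ 2 * Real.sqrt (1 + Real.log L))) +
          ℓ ^ (3 / 2 : ℝ) * Real.sqrt z) :=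
      mul_le_mul_of_nonneg_right hM1 (by positivity)
    refine le_trans ?_ e2
    rw [hBd]
    have f1 : 0 ≤ C₃ * ((r + 1 : ℝ) * Real.sqrt t) := by positivity
    have f2 : 0 ≤ C₃ * ((r + 1 : ℝ) * (ℓ ^ 2 * Real.sqrt (1 + Real.log (L : ℝ)))) := by positivity
    have f3 : 0 ≤ C₃ * (ℓ ^ (3 / 2 : ℝ) * Real.sqrt z) := by positivity
    nlinarith

end Pool.Agent.Results.MP_e8ee11_co.LinearCells
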