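import Pool.Agent.V8H5.LR.Final

set_option autoImplicit false

/-!
# The Beck–Fiala bound up to a logarithm for sets with at most `t ^ (2 - ε)` elements

Let `ε > 0`. There are constants `κ > 0` and `C` such that every set system of maximum degree at
most `t` (any number of points, any number of sets, any sizes) has a colouring in which every set
`S` has discrepancy at most
`C (√t (1 + log (1 + |S| / t)) + t ^ ε √(|S| / t) + |S| exp (-t ^ κ))`.
In particular, if all sets have at most `t ^ (2 - ε)` elements, then every set `S` has discrepancy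
at most `C √t (1 + log (1 + |S| / t))`, whatever the number of points and sets is; and the sets of
size at most `t ^ (3 - 3 ε)` always have discrepancy `o (t)`.

Proof. After scaling, the incidence matrix has entries at most `t ^ (-1/2)` and columns of norm at
most one; the rows may be long. As in `Pool.Agent.R959.LD3` (all sets with at most `t` elements) the
colouring is built in phases; in each phase the new fractional colouring is the minimiser over a
cube of `|z - g| ^ 2 / 2` plus a barrier potential of the row sums of `z`, where `g` is Gaussian.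
New: the mean stiffness of the barrier of a row is bounded by a constant, whatever the norm of the
row is, because the integral of the square root of the stiffness is a Lipschitz function of `g`.
So, after scaling down the long rows by a constant, all long rows move by at most a constant in a
phase and the phase still colours most of the mass at every single point. The position of the
barrier and the scale depend on the current mass of the row, so that the moves of a row are bounded
by a constant while it is long and decrease geometrically after that.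
-/

open Finset

namespace Pool.Agent.Results.MP_e8ee11_co.SizesBelowTSquared

theorem main_bound (ε : ℝ) (hε : 0 < ε) :
    ∃ κ C : ℝ, 0 < κ ∧ 0 < C ∧ ∀ (n m t : ℕ) (S : Fin m → Finset (Fin n)), 1 ≤ t →
      (∀ i : Fin n, (univ.filter (fun j : Fin m => i ∈ S j)).card ≤ t) →
      ∃ χ : Fin n → ℤ, (∀ i, χ i = 1 ∨ χ i = -1) ∧
        ∀ j : Fin m, ((|∑ i ∈ S j, χ i| : ℤ) : ℝ) ≤
          C * (Real.sqrt t * (1 + Real.log (1 + (S j).card / t)) +
            (t : ℝ) ^ ε * Real.sqrt ((S j).card / t) +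
            (S j).card * Real.exp (-((t : ℝ) ^ κ))) := by
  obtain ⟨κ, C, hκ, hC, h⟩ := Pool.Agent.V8H5.LR.final_bound (min ε (1/2))
    (lt_min hε (by norm_num)) (min_le_right _ _)
  refine ⟨κ, C, hκ, hC, fun n m t S ht hdeg => ?_⟩
  obtain ⟨χ, h1, h2⟩ := h n m t S ht hdeg
  refine ⟨χ, h1, fun j => (h2 j).trans ?_⟩
  have htr : (1 : ℝ) ≤ t := by exact_mod_cast ht
  have h3 : (t : ℝ) ^ (min ε (1/2)) ≤ (t : ℝ) ^ ε :=
    Real.rpow_le_rpow_of_exponent_le htr (min_le_left _ _)
  have h4 := mul_le_mul_of_nonneg_right h3 (Real.sqrt_nonneg (((S j).card : ℝ) / t))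
  exact mul_le_mul_of_nonneg_left (by linarith) hC.le

theorem small_sets (ε : ℝ) (hε : 0 < ε) :
    ∃ C : ℝ, 0 < C ∧ ∀ (n m t : ℕ) (S : Fin m → Finset (Fin n)), 1 ≤ t →
      (∀ i : Fin n, (univ.filter (fun j : Fin m => i ∈ S j)).card ≤ t) →
      (∀ j : Fin m, ((S j).card : ℝ) ≤ (t : ℝ) ^ (2 - ε)) →
      ∃ χ : Fin n → ℤ, (∀ i, χ i = 1 ∨ χ i = -1) ∧
        ∀ j : Fin m, ((|∑ i ∈ S j, χ i| : ℤ) : ℝ) ≤
          C * (Real.sqrt t * (1 + Real.log (1 + (S j).card / t))) := by
  obtain ⟨κ, C, hκ, hC, h⟩ := main_bound (ε / 2) (by positivity)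
  obtain ⟨N, hN⟩ := exists_nat_ge (2 / κ)
  refine ⟨C * (2 + N.factorial), by positivity, fun n m t S ht hdeg hS => ?_⟩
  obtain ⟨χ, h1, h2⟩ := h n m t S ht hdeg
  refine ⟨χ, h1, fun j => (h2 j).trans ?_⟩
  have htr : (1 : ℝ) ≤ t := by exact_mod_cast ht
  have ht0 : (0 : ℝ) < t := by linarith
  set s : ℝ := ((S j).card : ℝ) with hs
  have hs0 : 0 ≤ s := Nat.cast_nonneg _
  have hlog0 : 0 ≤ Real.log (1 + s / t) := Real.log_nonneg (by
    have : 0 ≤ s / t := by positivity
    linarith)
  have hsq : 1 ≤ Real.sqrt t := Real.one_le_sqrt.2 htr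
  set A : ℝ := Real.sqrt t * (1 + Real.log (1 + s / t)) with hA
  have hA1 : Real.sqrt t ≤ A := by
    rw [hA]
    exact le_mul_of_one_le_right (by linarith) (by linarith)
  -- the second term
  have h3 : (t : ℝ) ^ (ε / 2) * Real.sqrt (s / t) ≤ Real.sqrt t := by
    have e1 : s / t ≤ (t : ℝ) ^ (1 - ε) := by
      rw [div_le_iff₀ ht0]
      calc s ≤ (t : ℝ) ^ (2 - ε) := hS j
        _ = (t : ℝ) ^ (1 - ε) * (t : ℝ) ^ (1 : ℝ) := by
            rw [← Real.rpow_add ht0]; congr 1; ring
        _ = (t : ℝ) ^ (1 - ε) * t := by rw [Real.rpow_one]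
    calc (t : ℝ) ^ (ε / 2) * Real.sqrt (s / t)
        ≤ (t : ℝ) ^ (ε / 2) * Real.sqrt ((t : ℝ) ^ (1 - ε)) :=
          mul_le_mul_of_nonneg_left (Real.sqrt_le_sqrt e1) (by positivity)
      _ = (t : ℝ) ^ (1/2 : ℝ) := by
          rw [Real.sqrt_eq_rpow, ← Real.rpow_mul ht0.le, ← Real.rpow_add ht0]
          congr 1
          ring
      _ = Real.sqrt t := (Real.sqrt_eq_rpow _).symm
  -- the third term
  have h4 : s * Real.exp (-((t : ℝ) ^ κ)) ≤ N.factorial := by
    set T : ℝ := (t : ℝ) ^ κ with hT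
    have hT1 : 1 ≤ T := Real.one_le_rpow htr hκ.le
    have e1 : s ≤ T ^ N := by
      calc s ≤ (t : ℝ) ^ (2 - ε) := hS j
        _ ≤ (t : ℝ) ^ (κ * N) := by
            refine Real.rpow_le_rpow_of_exponent_le htr ?_
            have : 2 ≤ N * κ := by
              rw [div_le_iff₀ hκ] at hN
              exact hN
            linarith
        _ = T ^ N := by rw [hT, Real.rpow_mul ht0.le, Real.rpow_natCast]
    have e2 := Real.pow_div_factorial_le_exp T (by linarith) N
    rw [div_le_iff₀ (by positivity)] at e2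
    have e3 : Real.exp (-T) * Real.exp T = 1 := by rw [← Real.exp_add]; simp
    calc s * Real.exp (-T) ≤ (Real.exp T * N.factorial) * Real.exp (-T) :=
          mul_le_mul_of_nonneg_right (e1.trans e2) (Real.exp_pos _).le
      _ = (Real.exp (-T) * Real.exp T) * N.factorial := by ring
      _ = N.factorial := by rw [e3, one_mul]
  have h5 : (1 : ℝ) ≤ A := hsq.trans hA1
  have h6 : (0 : ℝ) ≤ N.factorial := Nat.cast_nonneg _
  calc C * (A + (t : ℝ) ^ (ε / 2) * Real.sqrt (s / t) + s * Real.exp (-((t : ℝ) ^ κ)))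
      ≤ C * (A + A + N.factorial * A) := by
        refine mul_le_mul_of_nonneg_left ?_ hC.le
        have : (N.factorial : ℝ) ≤ N.factorial * A := le_mul_of_one_le_right h6 h5
        linarith
    _ = C * (2 + N.factorial) * A := by ring

theorem result :
    (∀ ε : ℝ, 0 < ε → ∃ κ C : ℝ, 0 < κ ∧ 0 < C ∧
      ∀ (n m t : ℕ) (S : Fin m → Finset (Fin n)), 1 ≤ t →
        (∀ i : Fin n, (univ.filter (fun j : Fin m => i ∈ S j)).card ≤ t) →
        ∃ χ : Fin n → ℤ, (∀ i, χ i = 1 ∨ χ i = -1) ∧
          ∀ j : Fin m, ((|∑ i ∈ S j, χ i| : ℤ) : ℝ) ≤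
            C * (Real.sqrt t * (1 + Real.log (1 + (S j).card / t)) +
              (t : ℝ) ^ ε * Real.sqrt ((S j).card / t) +
              (S j).card * Real.exp (-((t : ℝ) ^ κ)))) ∧
    ∀ ε : ℝ, 0 < ε → ∃ C : ℝ, 0 < C ∧
      ∀ (n m t : ℕ) (S : Fin m → Finset (Fin n)), 1 ≤ t →
        (∀ i : Fin n, (univ.filter (fun j : Fin m => i ∈ S j)).card ≤ t) →
        (∀ j : Fin m, ((S j).card : ℝ) ≤ (t : ℝ) ^ (2 - ε)) →
        ∃ χ : Fin n → ℤ, (∀ i, χ i = 1 ∨ χ i = -1) ∧
          ∀ j : Fin m, ((|∑ i ∈ S j, χ i| : ℤ) : ℝ) ≤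
            C * (Real.sqrt t * (1 + Real.log (1 + (S j).card / t))) :=
  ⟨main_bound, small_sets⟩

end Pool.Agent.Results.MP_e8ee11_co.SizesBelowTSquared
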