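import Pool.Agent.V8H84.BF.Sparse
import Pool.Agent.Results.MP_e8ee11_co.LinearCells

set_option autoImplicit false

/-!
# The Beck–Fiala problem when the long sets have sparse intersections

Let `S_1, …, S_m` be subsets of `{1, …, n}` of maximum degree at most `t`. A set of the system is
*long* if it has more than `s` elements. There is no condition on the other sets (except for the
degree), and no bound for the sizes and for the number of the long sets, but the intersections of the
long sets are sparse: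

*Sparse intersections.* For every collection `R` of long sets at most `d |R|` pairs of sets in `R` have
intersections with distinct representatives.

This is so if every long set meets at most `2 d` other long sets, in particular if there are at most
`2 d + 1` long sets; it is also so if for every collection `R` of long sets at most `d |R|` elements are
in more than one set of `R`, or if the incidence graph of the long sets has no `K_h`-minor, with
`d = O (h √(log h))` (the last two examples are not in the Lean).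

Theorem: such a system has a colouring of discrepancy `O (√(t + s + 4 ^ d t))`, and colourings of
discrepancy `O ((r + 1) (√t + (1 + log t)^2 √(1 + d + log s)) + (1 + log t)^{3/2} √(log^{(r+1)} (min m n)))`
for every `r`, with `log^{(k)}` the `k`-th iterate of `x ↦ log (1 + x)`.

Proof. In a collection `R` of long sets choose as many pairs as possible whose intersections have
distinct representatives. Every element which is not a representative lies in a clique of the graph
of these pairs, and the graph is `2 d`-degenerate. So the elements have at most `(d + 4 ^ d) |R|`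
nonempty traces on `R`. By the pigeonhole principle every set `A` of at least two elements contains two
elements which are not separated by the sets with more than `max s (2 (d + 4 ^ d) t)` elements in `A`;
the result file `LinearCells` applies to such systems.
-/

open Finset

namespace Pool.Agent.Results.MP_e8ee11_co.SparseLongSets

/-- for every collection `R` of sets of the system with more than `s` elements, and all pairs
`p = (p₁, p₂)` in a set `H` of pairs (`p₁ < p₂`) of indices in `R`, with distinct representatives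
`a p ∈ S p₁ ∩ S p₂`: there are at most `d * |R|` such pairs -/
def SparseLong {m n : ℕ} (S : Fin m → Finset (Fin n)) (s d : ℕ) : Prop :=
  ∀ R : Finset (Fin m), (∀ i ∈ R, s < (S i).card) →
    ∀ H : Finset (Fin m × Fin m), (∀ p ∈ H, p.1 ∈ R ∧ p.2 ∈ R ∧ p.1 < p.2) →
      ∀ a : Fin m × Fin m → Fin n, (∀ p ∈ H, a p ∈ S p.1 ∩ S p.2) → Set.InjOn a H →
        H.card ≤ d * R.card

theorem log_pow_sqrt_le (t : ℝ) (ht : 1 ≤ t) :
    (1 + Real.log t) ^ 2 * Real.sqrt (1 + Real.log t) ≤ 56 * Real.sqrt t := by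
  have ht0 : 0 < t := by linarith
  have hlt : 0 ≤ Real.log t := Real.log_nonneg ht
  set c : ℝ := t ^ (1 / 5 : ℝ) with hc
  have hc0 : 0 < c := Real.rpow_pos_of_pos ht0 _
  have hc5 : c ^ 5 = t := by
    rw [hc, ← Real.rpow_natCast, ← Real.rpow_mul ht0.le]
    norm_num
  have hl : Real.log t = 5 * Real.log c := by
    rw [hc, Real.log_rpow ht0]; ring
  have h1 : 1 + Real.log t ≤ 5 * c := by
    have := Real.log_le_sub_one_of_pos hc0
    rw [hl]; linarith
  set x : ℝ := 1 + Real.log t with hx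
  have hx0 : 0 ≤ x := by linarith
  have h2 : (x ^ 2 * Real.sqrt x) ^ 2 ≤ (56 * Real.sqrt t) ^ 2 := by
    rw [mul_pow, Real.sq_sqrt hx0, mul_pow, Real.sq_sqrt ht0.le]
    calc (x ^ 2) ^ 2 * x = x ^ 5 := by ring
      _ ≤ (5 * c) ^ 5 := pow_le_pow_left₀ hx0 h1 5
      _ = 3125 * t := by rw [mul_pow, hc5]; norm_num
      _ ≤ 56 ^ 2 * t := by nlinarith
  have h3 := Real.sqrt_nonneg t
  have h4 := Real.sqrt_nonneg x
  exact (sq_le_sq₀ (by positivity) (by positivity)).1 h2

theorem result : ∃ C : ℝ, 0 < C ∧ ∀ (m n t s d : ℕ) (S : Fin m → Finset (Fin n)), 1 ≤ t → 1 ≤ s →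
    (∀ j : Fin n, (univ.filter (fun i : Fin m => j ∈ S i)).card ≤ t) →
    ((∀ i : Fin m, s < (S i).card → (univ.filter (fun k : Fin m => k ≠ i ∧ s < (S k).card ∧
        (S i ∩ S k).Nonempty)).card ≤ 2 * d) → SparseLong S s d) ∧
    (SparseLong S s d →
      (∃ χ : Fin n → ℤ, (∀ j, χ j = 1 ∨ χ j = -1) ∧
        ∀ i, ((|∑ j ∈ S i, χ j| : ℤ) : ℝ) ≤ C * Real.sqrt (t + s + 4 ^ d * t)) ∧
      ∀ r : ℕ, ∃ χ : Fin n → ℤ, (∀ j, χ j = 1 ∨ χ j = -1) ∧
        ∀ i, ((|∑ j ∈ S i, χ j| : ℤ) : ℝ) ≤
          C * (r + 1) * (Real.sqrt t + (1 + Real.log t) ^ 2 * Real.sqrt (1 + d + Real.log s)) +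
          C * (1 + Real.log t) ^ (3 / 2 : ℝ) *
            Real.sqrt ((fun x : ℝ => Real.log (1 + x))^[r + 1] (min m n : ℕ))) := by
  obtain ⟨C₀, hC₀, H⟩ := Pool.Agent.Results.MP_e8ee11_co.LinearCells.result
  refine ⟨57 * C₀, by positivity, ?_⟩
  intro m n t s d S ht hs hdeg
  refine ⟨fun h => Pool.Agent.V8H84.BF.sparse_of_meet S s d h, fun hS => ?_⟩
  have hS' : Pool.Agent.V8H84.BF.SparseLong S s d := hS
  set L : ℕ := max s (2 * (d + 4 ^ d) * t) with hL
  have hsL : s ≤ L := le_max_left _ _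
  have hL1 : 1 ≤ L := hs.trans hsL
  have hins : Pool.Agent.Results.MP_e8ee11_co.LinearCells.InseparablePairs S L :=
    Pool.Agent.V8H84.BF.insep_of_long_cells S t (d + 4 ^ d) s L hsL (le_max_right _ _) hdeg
      (Pool.Agent.V8H84.BF.cells_of_sparse S s d hS')
  obtain ⟨-, H1⟩ := H m n t S ht hdeg
  obtain ⟨H2, H3⟩ := H1 L hL1 hins
  have hd4 : d ≤ 4 ^ d := (Nat.lt_pow_self (by norm_num)).le
  have hLle : L ≤ s + 4 * (4 ^ d * t) := by
    rw [hL]
    refine max_le (Nat.le_add_right _ _) ?_
    have : (d + 4 ^ d) * t ≤ (2 * 4 ^ d) * t := Nat.mul_le_mul_right _ (by omega)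
    calc 2 * (d + 4 ^ d) * t = 2 * ((d + 4 ^ d) * t) := by ring
      _ ≤ 2 * ((2 * 4 ^ d) * t) := Nat.mul_le_mul_left _ this
      _ = 4 * (4 ^ d * t) := by ring
      _ ≤ _ := Nat.le_add_left _ _
  have hLR : (L : ℝ) ≤ s + 4 * (4 ^ d * t) := by exact_mod_cast hLle
  have htR : (1 : ℝ) ≤ t := by exact_mod_cast ht
  have hsR : (1 : ℝ) ≤ s := by exact_mod_cast hs
  have hL1R : (1 : ℝ) ≤ L := by exact_mod_cast hL1
  have h4d : (1 : ℝ) ≤ 4 ^ d := one_le_pow₀ (by norm_num)
  refine ⟨?_, fun r => ?_⟩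
  · obtain ⟨χ, h1, h2⟩ := H2
    refine ⟨χ, h1, fun i => (h2 i).trans ?_⟩
    have h3 : Real.sqrt ((t : ℝ) + L) ≤ 2 * Real.sqrt (t + s + 4 ^ d * t) := by
      have h4 : (2 : ℝ) * Real.sqrt (t + s + 4 ^ d * t) =
          Real.sqrt (4 * (t + s + 4 ^ d * t)) := by
        rw [Real.sqrt_mul (by norm_num), show (4 : ℝ) = 2 ^ 2 by norm_num,
          Real.sqrt_sq (by norm_num)]
      rw [h4]
      exact Real.sqrt_le_sqrt (by linarith)
    have h5 := Real.sqrt_nonneg ((t : ℝ) + s + 4 ^ d * t)
    calc C₀ * Real.sqrt (t + L) ≤ C₀ * (2 * Real.sqrt (t + s + 4 ^ d * t)) :=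
          mul_le_mul_of_nonneg_left h3 hC₀.le
      _ ≤ 57 * C₀ * Real.sqrt (t + s + 4 ^ d * t) := by nlinarith [mul_nonneg hC₀.le h5]
  · obtain ⟨χ, h1, h2⟩ := H3 r
    refine ⟨χ, h1, fun i => (h2 i).trans ?_⟩
    have hlt : 0 ≤ Real.log (t : ℝ) := Real.log_nonneg htR
    have hls : 0 ≤ Real.log (s : ℝ) := Real.log_nonneg hsR
    have hd0 : (0 : ℝ) ≤ d := Nat.cast_nonneg _
    have hlogL : Real.log L ≤ 2 + Real.log s + 2 * d + Real.log t := by
      have e1 : (L : ℝ) ≤ 5 * (s * (4 ^ d * t)) := by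
        have e2 : (s : ℝ) ≤ s * (4 ^ d * t) := by
          have : (1 : ℝ) ≤ 4 ^ d * t := one_le_mul_of_one_le_of_one_le h4d htR
          nlinarith
        have e3 : (4 : ℝ) ^ d * t ≤ s * (4 ^ d * t) := by
          have : (0 : ℝ) ≤ 4 ^ d * t := by positivity
          nlinarith
        linarith
      have e4 : Real.log L ≤ Real.log (5 * (s * (4 ^ d * t))) :=
        Real.log_le_log (by linarith) e1
      have hs0 : (s : ℝ) ≠ 0 := by linarith
      have ht0 : (t : ℝ) ≠ 0 := by linarith
      rw [Real.log_mul (by norm_num) (by positivity), Real.log_mul hs0 (by positivity),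
        Real.log_mul (by positivity) ht0, Real.log_pow] at e4
      have e5 : Real.log 2 ≤ 7 / 10 := by
        have := Real.log_two_lt_d9
        linarith
      have e6 : Real.log 4 ≤ 2 := by
        rw [show (4 : ℝ) = 2 ^ 2 by norm_num, Real.log_pow]
        push_cast
        linarith
      have e7 : Real.log 5 ≤ 2 := by
        have : Real.log 5 ≤ Real.log 4 + Real.log (5 / 4) := by
          rw [← Real.log_mul (by norm_num) (by norm_num)]
          norm_num
        have h8 := Real.log_le_sub_one_of_pos (show (0 : ℝ) < 5 / 4 by norm_num)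
        have h9 : Real.log 4 ≤ 7 / 5 := by
          rw [show (4 : ℝ) = 2 ^ 2 by norm_num, Real.log_pow]
          push_cast
          linarith
        linarith
      nlinarith
    set x : ℝ := 1 + Real.log (t : ℝ) with hx
    have hx1 : 1 ≤ x := by linarith
    set w : ℝ := 1 + d + Real.log s with hw
    have hw1 : 1 ≤ w := by linarith
    have hsq : Real.sqrt (1 + Real.log L) ≤ 2 * Real.sqrt w + Real.sqrt x := by
      have e1 : 1 + Real.log L ≤ (2 * Real.sqrt w + Real.sqrt x) ^ 2 := by
        have e2 : (2 * Real.sqrt w + Real.sqrt x) ^ 2 =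
            4 * (Real.sqrt w) ^ 2 + 4 * Real.sqrt w * Real.sqrt x + (Real.sqrt x) ^ 2 := by ring
        rw [e2, Real.sq_sqrt (by linarith), Real.sq_sqrt (by linarith)]
        have e3 : 0 ≤ 4 * Real.sqrt w * Real.sqrt x := by positivity
        linarith
      have e4 : 0 ≤ 2 * Real.sqrt w + Real.sqrt x := by positivity
      calc Real.sqrt (1 + Real.log L) ≤ Real.sqrt ((2 * Real.sqrt w + Real.sqrt x) ^ 2) :=
            Real.sqrt_le_sqrt e1
        _ = _ := Real.sqrt_sq e4
    have hlog := log_pow_sqrt_le (t : ℝ) htR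
    have a1 : 0 ≤ Real.sqrt (t : ℝ) := Real.sqrt_nonneg _
    have a2 : 0 ≤ x ^ (3 / 2 : ℝ) := Real.rpow_nonneg (by linarith) _
    set Q : ℝ := Real.sqrt ((fun x : ℝ => Real.log (1 + x))^[r + 1] (min m n : ℕ)) with hQ
    have a3 : 0 ≤ Q := Real.sqrt_nonneg _
    have a4 : 0 ≤ Real.sqrt w := Real.sqrt_nonneg _
    have a5 : 0 ≤ x ^ 2 * Real.sqrt w := by positivity
    have hr0 : (0 : ℝ) ≤ r := Nat.cast_nonneg _
    have b1 : Real.sqrt t + x ^ 2 * Real.sqrt (1 + Real.log L) ≤
        57 * (Real.sqrt t + x ^ 2 * Real.sqrt w) := by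
      have c1 : x ^ 2 * Real.sqrt (1 + Real.log L) ≤ x ^ 2 * (2 * Real.sqrt w + Real.sqrt x) :=
        mul_le_mul_of_nonneg_left hsq (by positivity)
      have c2 : x ^ 2 * (2 * Real.sqrt w + Real.sqrt x) =
          2 * (x ^ 2 * Real.sqrt w) + x ^ 2 * Real.sqrt x := by ring
      linarith
    have b2 : C₀ * (r + 1) * (Real.sqrt t + x ^ 2 * Real.sqrt (1 + Real.log L)) ≤
        57 * C₀ * (r + 1) * (Real.sqrt t + x ^ 2 * Real.sqrt w) := by
      calc C₀ * (r + 1) * (Real.sqrt t + x ^ 2 * Real.sqrt (1 + Real.log L))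
          ≤ C₀ * (r + 1) * (57 * (Real.sqrt t + x ^ 2 * Real.sqrt w)) :=
            mul_le_mul_of_nonneg_left b1 (by positivity)
        _ = _ := by ring
    have b3 : C₀ * x ^ (3 / 2 : ℝ) * Q ≤ 57 * C₀ * x ^ (3 / 2 : ℝ) * Q := by
      have : 0 ≤ C₀ * x ^ (3 / 2 : ℝ) * Q := by positivity
      calc C₀ * x ^ (3 / 2 : ℝ) * Q ≤ 57 * (C₀ * x ^ (3 / 2 : ℝ) * Q) := by linarith
        _ = _ := by ring
    exact add_le_add b2 b3

end Pool.Agent.Results.MP_e8ee11_co.SparseLongSets
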